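import Pool.Agent.Zk69.H5.Loc

set_option autoImplicit false

/-!
The exponents of the zero counts and of the bad heights are the same (helper69, for helper5).
-/

namespace Pool.Agent.Zk69.H5

open MeasureTheory Set Complex Filter Asymptotics
open Pool.Agent.Zk69.Hx (IncF DecF incF_of decF_of_incF far_measure BadX)
open Pool.Agent.Zk5.HR (vol NF vol_fin vol_nonneg vol_mono LI rpow_mono_O const_O logpow_O comp_two litt_O volz_le voll_le
  volx_lag DD_mono)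
open Pool.Agent.Zk4 (DD DD_nonneg BadZ Bad)
open H370 (mult Zf)

noncomputable section

/-- the sum of the distances to the line `Re s = θ` of the zeros to the right of it -/
def DS (θ T : ℝ) : ℝ := ∑ s ∈ Zf riemannZeta 1 T, (mult riemannZeta s : ℝ) * max (s.re - θ) 0

theorem DS_nonneg (θ T : ℝ) : 0 ≤ DS θ T :=
  Finset.sum_nonneg fun _ _ => mul_nonneg (Nat.cast_nonneg _) (le_max_right _ _)

theorem DS_half (T : ℝ) : DS (1 / 2) T = DD 1 T := rfl

theorem NR_le_DS {θ σ T : ℝ} (_h : θ < σ) : (σ - θ) * NR σ T ≤ DS θ T := by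
  classical
  unfold NR DS
  rw [Finset.mul_sum]
  refine le_trans ?_ (Finset.sum_le_sum_of_subset_of_nonneg (Finset.filter_subset (fun s : ℂ => σ < s.re) _)
    fun s _ _ => mul_nonneg (Nat.cast_nonneg _) (le_max_right _ _))
  refine Finset.sum_le_sum fun s hs => ?_
  have h4 := (Finset.mem_filter.1 hs).2
  rw [mul_comm]
  refine mul_le_mul_of_nonneg_left (le_trans ?_ (le_max_left _ _)) (Nat.cast_nonneg _)
  linarith

theorem DS_antitone {θ σ T : ℝ} (h : θ ≤ σ) : DS σ T ≤ DS θ T :=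
  Finset.sum_le_sum fun s _ => mul_le_mul_of_nonneg_left (max_le_max (by linarith) le_rfl) (Nat.cast_nonneg _)

/-- the estimate of the sum of the distances by the bad heights -/
def Dist : Prop := ∃ C : ℝ, 0 < C ∧ ∀ θ T : ℝ, 1 / 2 ≤ θ → 2 ≤ T →
  DS θ T ≤ C + C * Real.log T ^ 17 * vol {t : ℝ | ¬ DecF θ t} (T + 1)

theorem volzx_le {θ : ℝ} (hθ : 1 / 2 ≤ θ) (T : ℝ) : vol {t : ℝ | ¬ DecF θ t} T ≤ vol {t : ℝ | ¬ IncF θ t} T + 8 := by
  have hsub : {t : ℝ | ¬ DecF θ t} ∩ Icc 0 T ⊆ Icc 0 8 ∪ ({t : ℝ | ¬ IncF θ t} ∩ Icc 0 T) := by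
    rintro t ⟨h1, h2⟩
    rcases le_or_gt t 8 with h3 | h3
    · exact Or.inl ⟨h2.1, h3⟩
    · exact Or.inr ⟨fun h4 => h1 (decF_of_incF hθ h3.le h4), h2⟩
  have h1 : volume ({t : ℝ | ¬ DecF θ t} ∩ Icc 0 T) ≤ ENNReal.ofReal 8 + volume ({t : ℝ | ¬ IncF θ t} ∩ Icc 0 T) := by
    refine (measure_mono hsub).trans ((measure_union_le _ _).trans ?_)
    rw [Real.volume_Icc, sub_zero]
  have h2 := ENNReal.toReal_mono (ENNReal.add_ne_top.2 ⟨ENNReal.ofReal_ne_top, vol_fin _ T⟩) h1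
  rw [ENNReal.toReal_add ENNReal.ofReal_ne_top (vol_fin _ T), ENNReal.toReal_ofReal (by norm_num)] at h2
  unfold vol
  linarith

/-- `f = O(T^(a + ε))` for all `ε > 0` -/
def Exp (f : ℝ → ℝ) (a : ℝ) : Prop := ∀ ε : ℝ, 0 < ε → f =O[atTop] fun T : ℝ => T ^ (a + ε)

theorem isBigO_of_le {f g : ℝ → ℝ} {c : ℝ → ℝ} (hf : ∀ T, 0 ≤ f T) (h : ∀ T : ℝ, 2 ≤ T → f T ≤ g T)
    (hg : g =O[atTop] c) : f =O[atTop] c := by
  refine IsBigO.trans (IsBigO.of_bound 1 ?_) hg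
  filter_upwards [eventually_ge_atTop (2 : ℝ)] with T hT
  rw [one_mul, Real.norm_eq_abs, Real.norm_eq_abs, abs_of_nonneg (hf T)]
  exact (h T hT).trans (le_abs_self _)

/-- comparison of the arguments `T` and `T + 1`, for a monotone function -/
theorem comp_one {f : ℝ → ℝ} {a : ℝ} (hf : ∀ T, 0 ≤ f T) (hm : Monotone f)
    (h : f =O[atTop] (fun T : ℝ => T ^ a)) : (fun T => f (T + 1)) =O[atTop] (fun T : ℝ => T ^ a) :=
  isBigO_of_le (fun T => hf _) (fun T hT => hm (show T + 1 ≤ 2 * T by linarith)) (comp_two h)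

theorem exp_add_const {f : ℝ → ℝ} {a ε : ℝ} (ha : 0 ≤ a) (hε : 0 < ε) (c : ℝ)
    (h : f =O[atTop] fun T : ℝ => T ^ (a + ε)) : (fun T => f T + c) =O[atTop] fun T : ℝ => T ^ (a + ε) :=
  h.add (const_O (by linarith) c)

/-- multiplication with a power of the logarithm -/
theorem exp_log {f : ℝ → ℝ} {a ε : ℝ} (hε : 0 < ε) (k : ℕ) (h : f =O[atTop] fun T : ℝ => T ^ (a + ε / 2)) :
    (fun T => Real.log T ^ k * f T) =O[atTop] fun T : ℝ => T ^ (a + ε) := by
  have h1 := (logpow_O (show 0 < ε / 2 by positivity) k).mul h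
  refine h1.trans (IsBigO.of_bound 1 ?_)
  filter_upwards [eventually_gt_atTop (0 : ℝ)] with T hT
  rw [one_mul, ← Real.rpow_add hT]
  refine le_of_eq ?_
  congr 2
  ring

/-- the sum of the distances from the bad heights -/
theorem ds_of_badz (hd : Dist) {θ a : ℝ} (hθ : 1 / 2 ≤ θ) (ha : 0 ≤ a)
    (h : Exp (fun T => vol {t : ℝ | ¬ DecF θ t} T) a) : Exp (fun T => DS θ T) a := by
  obtain ⟨C, hC, hd⟩ := hd
  intro ε hε
  have h1 := comp_one (fun T => vol_nonneg _ T) (fun _ _ hab => vol_mono _ hab) (h (ε / 2) (by positivity))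
  have h2 := (exp_log hε 17 h1).const_mul_left C
  have h3 := exp_add_const ha hε C h2
  refine isBigO_of_le (fun T => DS_nonneg θ T) (fun T hT => ?_) h3
  have := hd θ T hθ hT
  linarith

theorem NR_mono' (θ : ℝ) : Monotone (fun T => NR θ T) := fun _ _ h => NR_mono θ h

/-- the measures of the bad heights have the exponents of the zeros -/
theorem badx_of_nr {θ a : ℝ} (hθ : 1 / 2 ≤ θ) (ha : 0 ≤ a) (h : Exp (fun T => NR θ T) a) :
    Exp (fun T => vol {t : ℝ | ¬ IncF θ t} T) a := by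
  intro ε hε
  have h1 := exp_add_const ha hε 2 (comp_one (fun T => NR_nonneg θ T) (NR_mono' θ) (h ε hε))
  exact isBigO_of_le (fun T => vol_nonneg _ T) (fun T _ => badx_le hθ) h1

theorem badz_of_badx {θ a : ℝ} (hθ : 1 / 2 ≤ θ) (ha : 0 ≤ a) (h : Exp (fun T => vol {t : ℝ | ¬ IncF θ t} T) a) :
    Exp (fun T => vol {t : ℝ | ¬ DecF θ t} T) a := by
  intro ε hε
  exact isBigO_of_le (fun T => vol_nonneg _ T) (fun T _ => volzx_le hθ T) (exp_add_const ha hε 8 (h ε hε))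

/-- every zero density estimate with a continuous exponent is the same estimate for the bad heights -/
theorem tfae_exp (hd : Dist) {a : ℝ → ℝ} (hc : ContinuousOn a (Ioo (1 / 2) 1)) (h0 : ∀ θ ∈ Ioo (1 / 2 : ℝ) 1, 0 ≤ a θ) :
    List.TFAE [
      ∀ θ ∈ Ioo (1 / 2 : ℝ) 1, ∀ ε : ℝ, 0 < ε → (fun T => NR θ T) =O[atTop] fun T : ℝ => T ^ (a θ + ε),
      ∀ θ ∈ Ioo (1 / 2 : ℝ) 1, ∀ ε : ℝ, 0 < ε → (fun T => vol {t : ℝ | ¬ IncF θ t} T) =O[atTop] fun T : ℝ => T ^ (a θ + ε),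
      ∀ θ ∈ Ioo (1 / 2 : ℝ) 1, ∀ ε : ℝ, 0 < ε → (fun T => vol {t : ℝ | ¬ DecF θ t} T) =O[atTop] fun T : ℝ => T ^ (a θ + ε)] := by
  tfae_have 1 → 2 := fun h θ hθ => badx_of_nr hθ.1.le (h0 θ hθ) (h θ hθ)
  tfae_have 2 → 3 := fun h θ hθ => badz_of_badx hθ.1.le (h0 θ hθ) (h θ hθ)
  tfae_have 3 → 1 := by
    intro h σ hσ ε hε
    -- a smaller abscissa with nearly the same exponent
    obtain ⟨θ, hθ1, hθ2, hθ3⟩ : ∃ θ : ℝ, θ ∈ Ioo (1 / 2 : ℝ) 1 ∧ θ < σ ∧ a θ ≤ a σ + ε / 2 := by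
      have h1 : ContinuousAt a σ := hc.continuousAt (isOpen_Ioo.mem_nhds hσ)
      have h2 : ∀ᶠ x in nhds σ, a x < a σ + ε / 2 := h1.eventually_lt_const (by linarith)
      have h3 : ∀ᶠ x in nhds σ, x ∈ Ioo (1 / 2 : ℝ) 1 := isOpen_Ioo.mem_nhds hσ
      have h4 : ∀ᶠ x in nhdsWithin σ (Iio σ), (a x < a σ + ε / 2 ∧ x ∈ Ioo (1 / 2 : ℝ) 1) ∧ x ∈ Iio σ :=
        ((h2.and h3).filter_mono nhdsWithin_le_nhds).and self_mem_nhdsWithin
      obtain ⟨x, ⟨h5, h6⟩, h7⟩ := h4.exists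
      exact ⟨x, h6, h7, h5.le⟩
    have h1 := ds_of_badz hd hθ1.1.le (h0 θ hθ1) (h θ hθ1) (ε / 2) (by positivity)
    have h2 : (fun T => DS θ T) =O[atTop] fun T : ℝ => T ^ (a σ + ε) :=
      h1.trans (rpow_mono_O (by linarith))
    have h3 := h2.const_mul_left (1 / (σ - θ))
    refine isBigO_of_le (fun T => NR_nonneg σ T) (fun T _ => ?_) h3
    have h4 := NR_le_DS (T := T) hθ2
    rw [one_div, ← div_eq_inv_mul, le_div_iff₀ (by linarith), mul_comm]
    exact h4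
  tfae_finish

/-- the exponents on the critical line -/
theorem tfae_half (hd : Dist) {a : ℝ} (ha : 0 ≤ a) :
    List.TFAE [
      ∀ ε : ℝ, 0 < ε → (fun T => vol BadZ T) =O[atTop] fun T : ℝ => T ^ (a + ε),
      ∀ ε : ℝ, 0 < ε → (fun T => vol BadX T) =O[atTop] fun T : ℝ => T ^ (a + ε),
      ∀ ε : ℝ, 0 < ε → (fun T => vol Bad T) =O[atTop] fun T : ℝ => T ^ (a + ε),
      ∀ ε : ℝ, 0 < ε → (fun T => DD 1 T) =O[atTop] fun T : ℝ => T ^ (a + ε),
      ∀ ε : ℝ, 0 < ε → (fun T => LI T) =O[atTop] fun T : ℝ => T ^ (a + ε)] := by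
  have e : {t : ℝ | ¬ DecF (1 / 2) t} = BadZ := by
    unfold Pool.Agent.Zk4.BadZ DecF Pool.Agent.Zk4.Anti
    norm_num
  tfae_have 1 → 4 := by
    intro h
    have h1 := ds_of_badz hd le_rfl ha (a := a) (θ := 1 / 2)
    rw [e] at h1
    exact h1 h
  tfae_have 4 → 3 := by
    intro h ε hε
    have h1 := (comp_two (h ε hε)).const_mul_left 2
    have h2 := exp_add_const ha hε (3 / 2) h1
    refine isBigO_of_le (fun T => vol_nonneg _ T) (fun T hT => ?_) h2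
    have h3 := voll_le (T := T) (by linarith)
    have h4 := DD_mono (show 1 ≤ T + 1 by linarith) (show T + 1 ≤ 2 * T by linarith)
    linarith
  tfae_have 3 → 2 := fun h ε hε => isBigO_of_le (fun T => vol_nonneg _ T) (fun T _ => volx_lag T) (h ε hε)
  tfae_have 2 → 1 := fun h ε hε =>
    isBigO_of_le (fun T => vol_nonneg _ T) (fun T _ => volz_le T) (exp_add_const ha hε 8 (h ε hε))
  tfae_have 4 → 5 := by
    intro h ε hε
    have h1 := (litt_O.trans (logpow_O (show 0 < a + ε by linarith) 4)).add ((h ε hε).const_mul_left (2 * Real.pi))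
    simpa using h1
  tfae_have 5 → 4 := by
    intro h ε hε
    have h1 := (h ε hε).sub (litt_O.trans (logpow_O (show 0 < a + ε by linarith) 4))
    have h2 : (fun T => DD 1 T) = fun T => (1 / (2 * Real.pi)) * (LI T - (LI T - 2 * Real.pi * DD 1 T)) := by
      funext T
      have := Real.pi_pos
      field_simp
      ring
    rw [h2]
    exact h1.const_mul_left _
  tfae_finish

end

end Pool.Agent.Zk69.H5
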