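import Pool.Agent.Zk5.HR.Lagu
import Pool.Agent.Zk69.Hx.Theta

set_option autoImplicit false

/-!
The local converse for the monotonicity of `|ξ|` and `|ζ|` at one height, and the bad heights against the zeros
to the right of `θ` (helper69).
-/

namespace Pool.Agent.Zk69.H5

open MeasureTheory Set Complex Filter
open Pool.Agent.Zk69.Hx (IncF DecF incF_of decF_of_incF far_measure)
open Pool.Agent.Zk5.HR (vol NF vol_fin)
open H370 (mult Zf)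

noncomputable section

/-- no zero to the right of `θ` in the cone `|t - γ| < β - 1/2`: then `|ξ|` increases on `[θ, ∞)` at the height `t` -/
theorem inc_local {θ t : ℝ} (hθ : 1 / 2 ≤ θ)
    (h : ∀ s : ℂ, riemannZeta s = 0 → θ < s.re → s.re - 1 / 2 ≤ |t - s.im|) : IncF θ t :=
  incF_of hθ fun s hs h1 _ => by
    rw [abs_sub_comm]
    exact h s hs h1

theorem dec_local {θ t : ℝ} (hθ : 1 / 2 ≤ θ) (ht : 8 ≤ t)
    (h : ∀ s : ℂ, riemannZeta s = 0 → θ < s.re → s.re - 1 / 2 ≤ |t - s.im|) : DecF θ t :=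
  decF_of_incF hθ ht (inc_local hθ h)

/-- the zeros to the right of `θ` up to the height `T`, with multiplicity -/
def NR (θ T : ℝ) : ℝ := ∑ s ∈ (Zf riemannZeta 1 T).filter (fun s => θ < s.re), (mult riemannZeta s : ℝ)

theorem NR_nonneg (θ T : ℝ) : 0 ≤ NR θ T := Finset.sum_nonneg fun _ _ => Nat.cast_nonneg _

theorem NR_mono (θ : ℝ) {T T' : ℝ} (h : T ≤ T') : NR θ T ≤ NR θ T' := by
  classical
  refine Finset.sum_le_sum_of_subset_of_nonneg ?_ fun _ _ _ => Nat.cast_nonneg _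
  intro s hs
  rw [Finset.mem_filter, H370.mem_Zf H370.good_zeta le_rfl] at hs ⊢
  obtain ⟨⟨h1, h2, h3, h4, h5⟩, h6⟩ := hs
  exact ⟨⟨h1, h2, h3, h4.trans h, h5⟩, h6⟩

/-- the measure of the bad heights for `ξ` on `[θ, ∞)` is at most the number of zeros to the right of `θ` -/
theorem badx_le {θ T : ℝ} (hθ : 1 / 2 ≤ θ) : vol {t : ℝ | ¬ IncF θ t} T ≤ NR θ (T + 1) + 2 := by
  classical
  have hsub : {t : ℝ | ¬ IncF θ t} ∩ Icc 0 T ⊆ Icc 0 (3 / 2) ∪ ({t : ℝ | ¬ IncF θ t} ∩ Icc (3 / 2) T) := by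
    rintro t ⟨h1, h2⟩
    rcases le_or_gt t (3 / 2) with h3 | h3
    · exact Or.inl ⟨h2.1, h3⟩
    · exact Or.inr ⟨h1, h3.le, h2.2⟩
  have h4 := far_measure (θ := θ) (A := 3 / 2) (X := T) hθ le_rfl
  rw [show (3 / 2 - 1 / 2 : ℝ) = 1 by norm_num] at h4
  have h5 : 2 * ∑ s ∈ Zf riemannZeta 1 (T + 1 / 2), (if θ < s.re then (mult riemannZeta s : ℝ) * |s.re - 1 / 2| else 0) ≤
      NR θ (T + 1 / 2) := by
    unfold NR
    rw [Finset.sum_filter, Finset.mul_sum]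
    refine Finset.sum_le_sum fun s hs => ?_
    rw [H370.mem_Zf H370.good_zeta le_rfl] at hs
    obtain ⟨h1, h2, h3, h4, h5⟩ := hs
    split_ifs with h
    · have h6 : |s.re - 1 / 2| ≤ 1 / 2 := by
        rw [abs_of_nonneg (by linarith)]
        linarith
      have h7 : (0:ℝ) ≤ (mult riemannZeta s : ℝ) := Nat.cast_nonneg _
      nlinarith
    · simp
  have h6 := NR_mono θ (show T + 1 / 2 ≤ T + 1 by linarith)
  have h0 := NR_nonneg θ (T + 1)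
  have h1 : volume ({t : ℝ | ¬ IncF θ t} ∩ Icc 0 T) ≤ ENNReal.ofReal (3 / 2 + NR θ (T + 1)) := by
    refine (measure_mono hsub).trans ((measure_union_le _ _).trans ?_)
    rw [Real.volume_Icc, ENNReal.ofReal_add (by norm_num) h0, sub_zero]
    exact add_le_add le_rfl (h4.trans (ENNReal.ofReal_le_ofReal (h5.trans h6)))
  have h2 := ENNReal.toReal_mono ENNReal.ofReal_ne_top h1
  rw [ENNReal.toReal_ofReal (by linarith)] at h2
  unfold vol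
  linarith

/-- the same for `ζ` -/
theorem badz_le {θ T : ℝ} (hθ : 1 / 2 ≤ θ) : vol {t : ℝ | ¬ DecF θ t} T ≤ NR θ (T + 1) + 10 := by
  have hsub : {t : ℝ | ¬ DecF θ t} ∩ Icc 0 T ⊆ Icc 0 8 ∪ ({t : ℝ | ¬ IncF θ t} ∩ Icc 0 T) := by
    rintro t ⟨h1, h2⟩
    rcases le_or_gt t 8 with h3 | h3
    · exact Or.inl ⟨h2.1, h3⟩
    · exact Or.inr ⟨fun h4 => h1 (decF_of_incF hθ h3.le h4), h2⟩
  have h1 : volume ({t : ℝ | ¬ DecF θ t} ∩ Icc 0 T) ≤ ENNReal.ofReal 8 + volume ({t : ℝ | ¬ IncF θ t} ∩ Icc 0 T) := by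
    refine (measure_mono hsub).trans ((measure_union_le _ _).trans ?_)
    rw [Real.volume_Icc, sub_zero]
  have h2 := ENNReal.toReal_mono (ENNReal.add_ne_top.2 ⟨ENNReal.ofReal_ne_top, vol_fin _ T⟩) h1
  rw [ENNReal.toReal_add ENNReal.ofReal_ne_top (vol_fin _ T), ENNReal.toReal_ofReal (by norm_num)] at h2
  have h3 := badx_le (T := T) hθ
  unfold vol at h3 ⊢
  linarith

/-- both together -/
theorem badxz_le {θ T : ℝ} (hθ : 1 / 2 ≤ θ) : vol {t : ℝ | ¬ (IncF θ t ∧ DecF θ t)} T ≤ NR θ (T + 1) + 10 := by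
  have hsub : {t : ℝ | ¬ (IncF θ t ∧ DecF θ t)} ∩ Icc 0 T ⊆ Icc 0 8 ∪ ({t : ℝ | ¬ IncF θ t} ∩ Icc 0 T) := by
    rintro t ⟨h1, h2⟩
    rcases le_or_gt t 8 with h3 | h3
    · exact Or.inl ⟨h2.1, h3⟩
    · exact Or.inr ⟨fun h4 => h1 ⟨h4, decF_of_incF hθ h3.le h4⟩, h2⟩
  have h1 : volume ({t : ℝ | ¬ (IncF θ t ∧ DecF θ t)} ∩ Icc 0 T) ≤
      ENNReal.ofReal 8 + volume ({t : ℝ | ¬ IncF θ t} ∩ Icc 0 T) := by
    refine (measure_mono hsub).trans ((measure_union_le _ _).trans ?_)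
    rw [Real.volume_Icc, sub_zero]
  have h2 := ENNReal.toReal_mono (ENNReal.add_ne_top.2 ⟨ENNReal.ofReal_ne_top, vol_fin _ T⟩) h1
  rw [ENNReal.toReal_add ENNReal.ofReal_ne_top (vol_fin _ T), ENNReal.toReal_ofReal (by norm_num)] at h2
  have h3 := badx_le (T := T) hθ
  unfold vol at h3 ⊢
  linarith

/-! ### the counting functions as sums over sets -/

theorem zero_right {ρ : ℂ} (h : riemannZeta ρ = 0) (h1 : 1 / 2 < ρ.re) (h2 : 0 < ρ.im) : ρ.re < 1 ∧ 8 < ρ.im := by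
  have h3 : ρ.re < 1 := by
    by_contra hcon
    exact riemannZeta_ne_zero_of_one_le_re (not_lt.1 hcon) h
  refine ⟨h3, ?_⟩
  have hX := (Pool.Agent.Y23.isZ_iff ρ).1 ⟨h, by linarith, h3⟩
  have hre : (ρ - 1 / 2).re = ρ.re - 1 / 2 := by simp
  have him : (ρ - 1 / 2).im = ρ.im := by simp
  have h8 := Pool.Agent.Zk4.low_zero hX (by rw [hre]; linarith)
  rwa [him, abs_of_pos h2] at h8

/-- the zeros with `Re ρ > θ` -/
theorem NR_eq {θ T : ℝ} (hθ : 1 / 2 ≤ θ) :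
    ∑ᶠ ρ ∈ {ρ : ℂ | riemannZeta ρ = 0 ∧ θ < ρ.re ∧ 0 < ρ.im ∧ ρ.im ≤ T}, (analyticOrderNatAt riemannZeta ρ : ℝ) =
      NR θ T := by
  classical
  unfold NR
  rw [← finsum_mem_coe_finset]
  have e : {ρ : ℂ | riemannZeta ρ = 0 ∧ θ < ρ.re ∧ 0 < ρ.im ∧ ρ.im ≤ T} =
      (((Zf riemannZeta 1 T).filter (fun s => θ < s.re) : Finset ℂ) : Set ℂ) := by
    ext ρ
    rw [Finset.coe_filter]
    simp only [mem_setOf_eq]
    rw [H370.mem_Zf H370.good_zeta le_rfl]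
    constructor
    · rintro ⟨h1, h2, h3, h4⟩
      obtain ⟨h5, h6⟩ := zero_right h1 (by linarith) h3
      exact ⟨⟨by linarith, h5, by linarith, h4, h1⟩, h2⟩
    · rintro ⟨⟨h1, h2, h3, h4, h5⟩, h6⟩
      exact ⟨h5, h6, by linarith, h4⟩
  rw [e]
  rfl

/-- the zeros with `Re ρ > θ` are some of the zeros with `Re ρ ≥ θ` -/
theorem NR_le_NF {δ T : ℝ} : NR (1 / 2 + δ) T ≤ NF δ T := by
  classical
  unfold NR NF
  refine Finset.sum_le_sum_of_subset_of_nonneg (fun s hs => ?_) fun _ _ _ => Nat.cast_nonneg _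
  rw [Finset.mem_filter] at hs ⊢
  exact ⟨hs.1, hs.2.le⟩

/-- `B(θ, T) ≤ N(θ, T + 1) + 2`, `θ > 1/2` -/
theorem badx_le_NF {δ T : ℝ} (hδ : 0 ≤ δ) : vol {t : ℝ | ¬ IncF (1 / 2 + δ) t} T ≤ NF δ (T + 1) + 2 :=
  (badx_le (by linarith)).trans (add_le_add_left NR_le_NF 2)

theorem badz_le_NF {δ T : ℝ} (hδ : 0 ≤ δ) : vol {t : ℝ | ¬ DecF (1 / 2 + δ) t} T ≤ NF δ (T + 1) + 10 :=
  (badz_le (by linarith)).trans (add_le_add_left NR_le_NF 10)

theorem badxz_le_NF {δ T : ℝ} (hδ : 0 ≤ δ) : vol {t : ℝ | ¬ (IncF (1 / 2 + δ) t ∧ DecF (1 / 2 + δ) t)} T ≤ NF δ (T + 1) + 10 :=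
  (badxz_le (by linarith)).trans (add_le_add_left NR_le_NF 10)

end

end Pool.Agent.Zk69.H5
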